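import Mathlib

set_option autoImplicit false

open Finset

namespace H575R2

section dual

variable {ι κ : Type} [Fintype ι] [DecidableEq ι] [Fintype κ] [DecidableEq κ]

/-- size of a colour class -/
def cls (c : ι → κ) (x : κ) : ℕ := (univ.filter fun i => c i = x).card

/-- size of a colour class, vertex `v` left out -/
def clsE (v : ι) (c : ι → κ) (x : κ) : ℕ := (univ.filter fun i => i ≠ v ∧ c i = x).card

noncomputable def psi (a : ℕ) : ℝ := if a < 2 then 0 else (-1) ^ (a + 1) * (Nat.factorial (a - 2) : ℝ)

noncomputable def phi (a : ℕ) : ℝ := if a ≤ 1 then 1 else 0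

/-- the dual weight: supported on the colourings with exactly one non-singleton class -/
noncomputable def wt (c : ι → κ) : ℝ := ∑ x, psi (cls c x) * ∏ y ∈ univ.erase x, phi (cls c y)

theorem cls_update (c : ι → κ) (v : ι) (z y : κ) :
    cls (Function.update c v z) y = clsE v c y + if y = z then 1 else 0 := by
  unfold cls clsE
  have h : (univ.filter fun i => Function.update c v z i = y) =
      (univ.filter fun i => i ≠ v ∧ c i = y) ∪ (if y = z then {v} else ∅) := by
    ext i
    simp only [mem_filter, mem_univ, true_and, mem_union]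
    by_cases hi : i = v
    · subst hi
      simp only [Function.update_self, ne_eq, not_true_eq_false, false_and, false_or]
      by_cases hz : y = z
      · simp [hz]
      · simp [hz]
        exact fun h => hz h.symm
    · rw [Function.update_of_ne hi]
      by_cases hz : y = z
      · simp [hz, hi]
      · simp [hz, hi]
  rw [h, card_union_of_disjoint]
  · congr 1
    split_ifs <;> simp
  · rw [Finset.disjoint_left]
    intro i hi
    simp only [mem_filter, mem_univ, true_and] at hi
    split_ifs
    · simp [hi.1]
    · simp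

theorem sum_clsE (v : ι) (c : ι → κ) : ∑ x, clsE v c x + 1 = Fintype.card ι := by
  unfold clsE
  have h1 : ∑ x, (univ.filter fun i => i ≠ v ∧ c i = x).card = (univ.filter fun i => i ≠ v).card := by
    have := Finset.card_eq_sum_card_fiberwise (f := c) (s := univ.filter fun i => i ≠ v)
      (t := univ) (by intro i _; exact mem_coe.mpr (mem_univ _))
    rw [this]
    refine Finset.sum_congr rfl fun x _ => ?_
    rw [Finset.filter_filter]
  rw [h1]
  have h2 : (univ.filter fun i => i ≠ v) = univ.erase v := by
    ext i; simp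
  rw [h2, card_erase_of_mem (mem_univ v), card_univ]
  have : 0 < Fintype.card ι := Fintype.card_pos_iff.mpr ⟨v⟩
  omega

theorem wt_term (hcard : Fintype.card ι = Fintype.card κ + 1) (c : ι → κ) (v : ι) (x : κ) :
    ∑ z, psi (clsE v c x + if x = z then 1 else 0) *
      ∏ y ∈ univ.erase x, phi (clsE v c y + if y = z then 1 else 0) =
    if (∀ y, clsE v c y = 1) then -1 else 0 := by
  set b := clsE v c with hb
  by_cases hA : ∃ y, y ≠ x ∧ 2 ≤ b y
  · obtain ⟨y, hyx, hy⟩ := hA
    rw [if_neg (fun h => by have := h y; omega)]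
    refine Finset.sum_eq_zero fun z _ => ?_
    rw [Finset.prod_eq_zero (mem_erase.mpr ⟨hyx, mem_univ y⟩), mul_zero]
    unfold phi
    rw [if_neg (by omega)]
  · push Not at hA
    have hb1 : ∀ y, y ≠ x → b y ≤ 1 := fun y hy => by have := hA y hy; omega
    -- z = x term and the others
    rw [← Finset.add_sum_erase univ _ (mem_univ x)]
    have e1 : psi (b x + if x = x then 1 else 0) *
        ∏ y ∈ univ.erase x, phi (b y + if y = x then 1 else 0) = psi (b x + 1) := by
      rw [if_pos rfl, Finset.prod_eq_one, mul_one]
      intro y hy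
      have hyx := (mem_erase.mp hy).1
      rw [if_neg hyx, add_zero]
      unfold phi
      rw [if_pos (hb1 y hyx)]
    have e2 : ∑ z ∈ univ.erase x, psi (b x + if x = z then 1 else 0) *
        ∏ y ∈ univ.erase x, phi (b y + if y = z then 1 else 0) =
        psi (b x) * ((univ.erase x).filter fun z => b z = 0).card := by
      rw [Finset.card_filter]
      push_cast
      rw [Finset.mul_sum]
      refine Finset.sum_congr rfl fun z hz => ?_
      have hzx := (mem_erase.mp hz).1
      rw [if_neg (Ne.symm hzx), add_zero]
      congr 1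
      rw [← Finset.mul_prod_erase (univ.erase x) _ hz]
      rw [Finset.prod_eq_one, mul_one, if_pos rfl]
      · unfold phi
        by_cases h0 : b z = 0
        · simp [h0]
        · have h1 : b z = 1 := by have := hb1 z hzx; omega
          simp [h1]
      · intro y hy
        have h1 := mem_erase.mp hy
        have h2 := mem_erase.mp h1.2
        rw [if_neg h1.1, add_zero]
        unfold phi
        rw [if_pos (hb1 y h2.1)]
    rw [e1, e2]
    -- count
    set r := ((univ.erase x).filter fun z => b z = 0).card with hr
    have hcount : b x = r + 1 := by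
      have hs := sum_clsE v c
      rw [← hb, hcard] at hs
      have hs' : ∑ y, b y = Fintype.card κ := by omega
      rw [← Finset.add_sum_erase univ _ (mem_univ x)] at hs'
      have h3 : ∑ y ∈ univ.erase x, b y + r = (univ.erase x).card := by
        rw [hr, Finset.card_filter, ← Finset.sum_add_distrib, Finset.card_eq_sum_ones]
        refine Finset.sum_congr rfl fun y hy => ?_
        have hyx := (mem_erase.mp hy).1
        have := hb1 y hyx
        by_cases h0 : b y = 0
        · simp [h0]
        · have h1 : b y = 1 := by omega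
          simp [h1]
      rw [card_erase_of_mem (mem_univ x), card_univ] at h3
      have hpos : 0 < Fintype.card κ := Fintype.card_pos_iff.mpr ⟨x⟩
      omega
    rw [hcount]
    by_cases hr0 : r = 0
    · have hall : ∀ y, b y = 1 := by
        intro y
        by_cases hyx : y = x
        · rw [hyx, hcount, hr0]
        · have h1 := hb1 y hyx
          have h2 : b y ≠ 0 := by
            intro h0
            have : y ∈ (univ.erase x).filter fun z => b z = 0 :=
              mem_filter.mpr ⟨mem_erase.mpr ⟨hyx, mem_univ y⟩, h0⟩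
            have : 0 < r := by rw [hr]; exact card_pos.mpr ⟨y, this⟩
            omega
          omega
      rw [if_pos hall, hr0]
      unfold psi
      norm_num
    · have hnall : ¬ ∀ y, b y = 1 := by
        intro h
        have := h x
        omega
      rw [if_neg hnall]
      obtain ⟨r', hr'⟩ : ∃ r', r = r' + 1 := ⟨r - 1, by omega⟩
      rw [hr']
      unfold psi
      rw [if_neg (by omega), if_neg (by omega)]
      have e3 : r' + 1 + 1 + 1 - 2 = r' + 1 := by omega
      have e4 : r' + 1 + 1 - 2 = r' := by omega
      rw [e3, e4, Nat.factorial_succ]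
      push_cast
      ring

/-- key marginal identity for the dual weight -/
theorem wt_sum (hcard : Fintype.card ι = Fintype.card κ + 1) (c : ι → κ) (v : ι) :
    ∑ z, wt (Function.update c v z) =
      if (∀ y, clsE v c y = 1) then -(Fintype.card κ : ℝ) else 0 := by
  unfold wt
  rw [Finset.sum_comm]
  simp only [cls_update]
  rw [Finset.sum_congr rfl (fun x _ => wt_term hcard c v x)]
  rw [Finset.sum_const, card_univ, nsmul_eq_mul]
  split_ifs <;> simp

theorem wt_sum_nonpos (hcard : Fintype.card ι = Fintype.card κ + 1) (c : ι → κ) (v : ι) :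
    ∑ z, wt (Function.update c v z) ≤ 0 := by
  rw [wt_sum hcard]
  split_ifs
  · simp
  · exact le_refl _

/-- resampling one coordinate -/
theorem sum_update {β : Type} [AddCommMonoid β] (h : (ι → κ) → β) (t : ι) :
    (Fintype.card κ) • ∑ χ, h χ = ∑ χ : ι → κ, ∑ x, h (Function.update χ t x) := by
  -- reorganise through the equivalence with κ × ({j // j ≠ t} → κ)
  have key : ∀ g : (ι → κ) → β, ∑ χ, g χ =
      ∑ p : κ × ({j // j ≠ t} → κ), g ((Equiv.funSplitAt t κ).symm p) := by
    intro g
    exact (Equiv.sum_comp (Equiv.funSplitAt t κ).symm g).symm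
  rw [key h, key (fun χ => ∑ x, h (Function.update χ t x))]
  rw [Fintype.sum_prod_type, Fintype.sum_prod_type]
  have e : ∀ (y x : κ) (r : {j // j ≠ t} → κ),
      Function.update ((Equiv.funSplitAt t κ).symm (y, r)) t x = (Equiv.funSplitAt t κ).symm (x, r) := by
    intro y x r
    funext j
    by_cases hj : j = t
    · subst hj
      simp [Equiv.funSplitAt, Equiv.piSplitAt]
    · rw [Function.update_of_ne hj]
      simp [Equiv.funSplitAt, Equiv.piSplitAt, hj]
  simp only [e]
  rw [Finset.sum_const, card_univ]
  congr 1
  rw [Finset.sum_comm]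

theorem exists_all_one [Nonempty κ] (hcard : Fintype.card ι = Fintype.card κ + 1) (v : ι) :
    ∃ c : ι → κ, ∀ y, clsE v c y = 1 := by
  classical
  have h1 : Fintype.card {j : ι // j ≠ v} = Fintype.card κ := by
    rw [Fintype.card_subtype_compl, Fintype.card_subtype_eq]
    omega
  have e : {j : ι // j ≠ v} ≃ κ := Fintype.equivOfCardEq h1
  obtain ⟨k0⟩ := (inferInstance : Nonempty κ)
  refine ⟨fun i => if h : i ≠ v then e ⟨i, h⟩ else k0, fun y => ?_⟩
  unfold clsE
  rw [Finset.card_eq_one]
  refine ⟨(e.symm y).1, ?_⟩
  ext i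
  simp only [mem_filter, mem_univ, true_and, mem_singleton]
  constructor
  · rintro ⟨h1, h2⟩
    rw [dif_pos h1] at h2
    rw [← h2]
    simp
  · intro h
    have hv : i ≠ v := by rw [h]; exact (e.symm y).2
    refine ⟨hv, ?_⟩
    rw [dif_pos hv]
    have : (⟨i, hv⟩ : {j : ι // j ≠ v}) = e.symm y := Subtype.ext h
    rw [this]
    simp

theorem wt_total [Nonempty κ] (hcard : Fintype.card ι = Fintype.card κ + 1) (v : ι) :
    ∑ c : ι → κ, wt c ≤ -1 := by
  have h := sum_update (fun c : ι → κ => wt c) v
  obtain ⟨c0, hc0⟩ := exists_all_one (κ := κ) hcard v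
  have hq : (0 : ℝ) < Fintype.card κ := by exact_mod_cast Fintype.card_pos
  have h2 : ∑ c : ι → κ, ∑ x, wt (Function.update c v x) ≤ -(Fintype.card κ : ℝ) := by
    rw [← Finset.add_sum_erase univ _ (mem_univ c0)]
    have e1 : ∑ x, wt (Function.update c0 v x) = -(Fintype.card κ : ℝ) := by
      rw [wt_sum hcard, if_pos hc0]
    have e2 : ∑ c ∈ univ.erase c0, ∑ x, wt (Function.update c v x) ≤ 0 :=
      Finset.sum_nonpos fun c _ => wt_sum_nonpos hcard c v
    linarith
  rw [← h, nsmul_eq_mul] at h2
  by_contra hneg
  push Not at hneg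
  nlinarith

theorem wt_pair (hcard : Fintype.card ι = Fintype.card κ + 1) {a b v : ι} (hab : a ≠ b)
    (ha : a ≠ v) (hb : b ≠ v) :
    ∑ c : ι → κ, wt c * (if c a = c b then 1 else 0) = 0 := by
  rcases isEmpty_or_nonempty κ with he | hne
  · refine Finset.sum_eq_zero fun c _ => ?_
    exact he.elim (c a)
  have h := sum_update (fun c : ι → κ => wt c * (if c a = c b then (1 : ℝ) else 0)) v
  have h2 : ∑ c : ι → κ, ∑ x, (wt (Function.update c v x) *
      (if Function.update c v x a = Function.update c v x b then (1 : ℝ) else 0)) = 0 := by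
    refine Finset.sum_eq_zero fun c _ => ?_
    simp only [Function.update_of_ne ha, Function.update_of_ne hb]
    rw [← Finset.sum_mul, wt_sum hcard]
    by_cases hc : c a = c b
    · rw [if_neg, zero_mul]
      intro hall
      have h1 := hall (c a)
      unfold clsE at h1
      rw [Finset.card_eq_one] at h1
      obtain ⟨i, hi⟩ := h1
      have ha' : a ∈ univ.filter fun i => i ≠ v ∧ c i = c a := by simp [ha]
      have hb' : b ∈ univ.filter fun i => i ≠ v ∧ c i = c a := by simp [hb, hc]
      rw [hi, mem_singleton] at ha' hb'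
      exact hab (ha'.trans hb'.symm)
    · rw [if_neg hc, mul_zero]
  rw [h2, nsmul_eq_mul] at h
  have hq : (Fintype.card κ : ℝ) ≠ 0 := by exact_mod_cast Fintype.card_ne_zero
  exact (mul_eq_zero.mp h).resolve_left hq

end dual

/-- number of monochromatic pairs -/
noncomputable def mono {k : ℕ} {κ : Type} [DecidableEq κ] (c : Fin k → κ) : ℝ :=
  ∑ p ∈ univ.filter (fun p : Fin k × Fin k => p.1 < p.2), if c p.1 = c p.2 then 1 else 0

theorem mono_nonneg {k : ℕ} {κ : Type} [DecidableEq κ] (c : Fin k → κ) : 0 ≤ mono c :=
  Finset.sum_nonneg fun p _ => by split_ifs <;> norm_num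

theorem mono_le {k : ℕ} {κ : Type} [DecidableEq κ] (c : Fin k → κ) : mono c ≤ (k : ℝ) ^ 2 := by
  unfold mono
  calc _ ≤ ∑ p ∈ univ.filter (fun p : Fin k × Fin k => p.1 < p.2), (1 : ℝ) :=
        Finset.sum_le_sum fun p _ => by split_ifs <;> norm_num
    _ ≤ ∑ p : Fin k × Fin k, (1 : ℝ) :=
        Finset.sum_le_sum_of_subset_of_nonneg (Finset.filter_subset _ _) (fun _ _ _ => zero_le_one)
    _ = (k : ℝ) ^ 2 := by
        simp [sq]

theorem wt_mono {k q : ℕ} (hk : 3 ≤ k) (hkq : k = q + 1) :
    ∑ c : Fin k → Fin q, wt c * mono c = 0 := by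
  unfold mono
  simp only [Finset.mul_sum]
  rw [Finset.sum_comm]
  refine Finset.sum_eq_zero fun p hp => ?_
  have hlt : p.1 < p.2 := (mem_filter.mp hp).2
  obtain ⟨v, hv1, hv2⟩ : ∃ v : Fin k, p.1 ≠ v ∧ p.2 ≠ v := by
    by_contra hcon
    push Not at hcon
    have hsub : (univ : Finset (Fin k)) ⊆ {p.1, p.2} := by
      intro v _
      rw [mem_insert, mem_singleton]
      by_cases h1 : p.1 = v
      · exact Or.inl h1.symm
      · exact Or.inr (hcon v h1).symm
    have := Finset.card_le_card hsub
    rw [card_univ, Fintype.card_fin] at this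
    have h2 := Finset.card_le_two (a := p.1) (b := p.2)
    omega
  exact wt_pair (by simp [hkq]) hlt.ne hv1 hv2

end H575R2
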