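import Pool.Agent.H575R2.Rect

set_option autoImplicit false

open Finset

namespace H575R2

/-- pulling back along an injection multiplies sums by a constant -/
theorem sum_comp_inj {k q : ℕ} {V : Type} [Fintype V] [DecidableEq V]
    (f : Fin k → V) (hf : Function.Injective f) (H : (Fin k → Fin q) → ℝ) :
    ∃ h : ℝ, 0 ≤ h ∧ h * (q : ℝ) ^ k = Fintype.card (V → Fin q) ∧
      ∑ χ : V → Fin q, H (χ ∘ f) = h * ∑ c, H c := by
  classical
  let p : V → Prop := fun x => x ∈ Set.range f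
  let E : (V → Fin q) ≃ ({x // p x} → Fin q) × ({x // ¬ p x} → Fin q) :=
    Equiv.piEquivPiSubtypeProd p (fun _ => Fin q)
  let e : Fin k ≃ {x // p x} := Equiv.ofInjective f hf
  have hE : ∀ g h, (E.symm (g, h)) ∘ f = g ∘ e := by
    intro g h
    funext i
    have hp : p (f i) := ⟨i, rfl⟩
    simp only [E, Function.comp_apply, Equiv.piEquivPiSubtypeProd_symm_apply]
    rw [dif_pos hp]
    rfl
  refine ⟨(Fintype.card ({x // ¬ p x} → Fin q) : ℝ), by positivity, ?_, ?_⟩
  · have h1 : Fintype.card (V → Fin q) =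
        Fintype.card ({x // p x} → Fin q) * Fintype.card ({x // ¬ p x} → Fin q) := by
      rw [Fintype.card_congr E, Fintype.card_prod]
    have h2 : Fintype.card ({x // p x} → Fin q) = q ^ k := by
      rw [Fintype.card_fun, Fintype.card_fin, ← Fintype.card_congr e, Fintype.card_fin]
    rw [h1, h2]
    push_cast
    ring
  · rw [← Equiv.sum_comp E.symm, Fintype.sum_prod_type]
    simp only [hE]
    rw [Finset.mul_sum]
    simp only [Finset.sum_const, card_univ, nsmul_eq_mul]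
    have := Equiv.sum_comp (Equiv.arrowCongr e (Equiv.refl (Fin q))).symm
      (fun c => (Fintype.card ({x // ¬ p x} → Fin q) : ℝ) * H c)
    rw [← this]
    refine Finset.sum_congr rfl fun g _ => ?_
    congr 2

/-- Every nonnegative factorisation of the matrix `mono (χ ∘ f) - ε` has at least
`c ε^(2k+1) N` terms, where `N` is the number of injections. -/
theorem nnrank_bound (k : ℕ) (hk : 3 ≤ k) :
    ∃ c : ℝ, 0 < c ∧ ∀ ε : ℝ, 0 < ε → ε ≤ 1 → ∀ (V : Type) [Fintype V] [DecidableEq V]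
      (r : ℕ) (u : Fin r → (V → Fin (k - 1)) → ℝ) (v : Fin r → (Fin k → V) → ℝ),
      (∀ l χ, 0 ≤ u l χ) → (∀ l f, Function.Injective f → 0 ≤ v l f) →
      (∀ χ f, Function.Injective f → mono (χ ∘ f) - ε = ∑ l, u l χ * v l f) →
      c * ε ^ (2 * k + 1) * ((univ.filter fun f : Fin k → V => Function.Injective f).card : ℝ) ≤ r := by
  classical
  set q := k - 1 with hqdef
  have hkq : k = q + 1 := by omega
  have hq : 0 < q := by omega
  have hk0 : 0 < k := by omega
  have : Nonempty (Fin q) := ⟨⟨0, hq⟩⟩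
  have hcard : Fintype.card (Fin k) = Fintype.card (Fin q) + 1 := by simp [hkq]
  set Msum : ℝ := ∑ c : Fin k → Fin q, mono c with hMsum
  have hMsum0 : 0 ≤ Msum := Finset.sum_nonneg fun c _ => mono_nonneg c
  set B : ℝ := 1 + ∑ c : Fin k → Fin q, |wt c| with hBdef
  have hB1 : 1 ≤ B := by
    have : 0 ≤ ∑ c : Fin k → Fin q, |wt c| := Finset.sum_nonneg fun c _ => abs_nonneg _
    linarith
  have hB : 0 < B := by linarith
  set θ : ℝ := 1 / (2 * (1 + Msum)) with hθ
  have hθ0 : 0 < θ := by positivity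
  have hθ1 : θ ≤ 1 := by
    rw [hθ, div_le_one (by positivity)]
    linarith
  have hqR : (0 : ℝ) < q := by exact_mod_cast hq
  have hkR : (0 : ℝ) < k := by exact_mod_cast hk0
  refine ⟨θ ^ (2 * k) / (2 * (q : ℝ) ^ k * (k : ℝ) ^ 2 * B * k.factorial * (4 * k * B ^ 2) ^ k),
    by positivity, ?_⟩
  intro ε hε hε1 V _ _ r u v hu hv hfac
  set δ : ℝ := ε * θ with hδdef
  have hδ : 0 < δ := by positivity
  have hδB : δ ≤ B := by
    have : δ ≤ 1 := by
      rw [hδdef]
      calc ε * θ ≤ 1 * 1 := mul_le_mul hε1 hθ1 hθ0.le zero_le_one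
        _ = 1 := one_mul 1
    linarith
  set W : (Fin k → Fin q) → ℝ := fun c => wt c - δ with hWdef
  have hW : ∀ c, |W c| ≤ B := by
    intro c
    have h1 : |wt c| ≤ ∑ c : Fin k → Fin q, |wt c| :=
      Finset.single_le_sum (f := fun c : Fin k → Fin q => |wt c|) (fun c _ => abs_nonneg _) (mem_univ c)
    have h2 : |W c| ≤ |wt c| + |δ| := abs_sub _ _
    have h3 : |δ| ≤ 1 := by
      rw [abs_of_pos hδ, hδdef]
      calc ε * θ ≤ 1 * 1 := mul_le_mul hε1 hθ1 hθ0.le zero_le_one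
        _ = 1 := one_mul 1
    linarith
  have hmean : ∀ c v, ∑ x, W (Function.update c v x) ≤ -(δ * q) := by
    intro c v
    have h1 := wt_sum_nonpos hcard c v
    have h2 : ∑ x, W (Function.update c v x) = ∑ x, wt (Function.update c v x) - q * δ := by
      rw [hWdef]
      simp only
      rw [Finset.sum_sub_distrib]
      simp
    rw [h2]
    linarith
  -- the pairing with the target
  have hpair : ε / 2 ≤ ∑ c, W c * (mono c - ε) := by
    have h1 : ∑ c : Fin k → Fin q, wt c * mono c = 0 := wt_mono hk hkq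
    have h2 := wt_total (κ := Fin q) hcard ⟨0, hk0⟩
    have h3 : ∑ c : Fin k → Fin q, W c * (mono c - ε) =
        ∑ c : Fin k → Fin q, wt c * mono c - ε * ∑ c : Fin k → Fin q, wt c - δ * Msum +
          δ * ε * (Fintype.card (Fin k → Fin q) : ℝ) := by
      have hconst : δ * ε * (Fintype.card (Fin k → Fin q) : ℝ) = ∑ c : Fin k → Fin q, δ * ε := by
        rw [Finset.sum_const, card_univ, nsmul_eq_mul]
        ring
      rw [hMsum, Finset.mul_sum, Finset.mul_sum, hconst, ← Finset.sum_sub_distrib,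
        ← Finset.sum_sub_distrib, ← Finset.sum_add_distrib]
      refine Finset.sum_congr rfl fun c _ => ?_
      rw [hWdef]
      ring
    have h4 : δ * Msum ≤ ε / 2 := by
      rw [hδdef, hθ]
      rw [mul_assoc]
      have : 1 / (2 * (1 + Msum)) * Msum ≤ 1 / 2 := by
        rw [div_mul_eq_mul_div, div_le_div_iff₀ (by positivity) (by norm_num)]
        linarith
      calc ε * (1 / (2 * (1 + Msum)) * Msum) ≤ ε * (1 / 2) := mul_le_mul_of_nonneg_left this hε.le
        _ = ε / 2 := by ring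
    have h5 : 0 ≤ δ * ε * (Fintype.card (Fin k → Fin q) : ℝ) := by positivity
    rw [h3, h1]
    nlinarith
  set F := univ.filter fun f : Fin k → V => Function.Injective f with hF
  have hFinj : ∀ f ∈ F, Function.Injective f := fun f hf => (mem_filter.mp hf).2
  set Ω : ℝ := (Fintype.card (V → Fin q) : ℝ) with hΩ
  have hΩ0 : 0 < Ω := by
    rw [hΩ]
    exact_mod_cast Fintype.card_pos
  -- lower bound of the total pairing
  have hlow : (F.card : ℝ) * (Ω / (q : ℝ) ^ k * (ε / 2)) ≤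
      ∑ f ∈ F, ∑ χ : V → Fin q, W (χ ∘ f) * (mono (χ ∘ f) - ε) := by
    rw [← nsmul_eq_mul, ← Finset.sum_const]
    refine Finset.sum_le_sum fun f hf => ?_
    obtain ⟨h, hh0, hh1, hh2⟩ := sum_comp_inj (q := q) f (hFinj f hf) (fun c => W c * (mono c - ε))
    have hh : h = Ω / (q : ℝ) ^ k := by
      rw [hΩ, ← hh1]
      field_simp
    have h3 : ∑ χ : V → Fin q, W (χ ∘ f) * (mono (χ ∘ f) - ε) = h * ∑ c, W c * (mono c - ε) := hh2
    rw [h3, hh]
    exact mul_le_mul_of_nonneg_left hpair (by positivity)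
  -- upper bound term by term
  have hup : ∑ f ∈ F, ∑ χ : V → Fin q, W (χ ∘ f) * (mono (χ ∘ f) - ε) ≤
      r * ((k : ℝ) ^ 2 * B * ((k / (δ ^ 2 / (4 * B ^ 2))) ^ k * k.factorial) * Ω) := by
    have h1 : ∑ f ∈ F, ∑ χ : V → Fin q, W (χ ∘ f) * (mono (χ ∘ f) - ε) =
        ∑ l, ∑ f ∈ F, v l f * ∑ χ : V → Fin q, u l χ * W (χ ∘ f) := by
      rw [Finset.sum_comm (s := (univ : Finset (Fin r)))]
      refine Finset.sum_congr rfl fun f hf => ?_
      simp only [Finset.mul_sum]
      rw [Finset.sum_comm (s := (univ : Finset (Fin r)))]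
      refine Finset.sum_congr rfl fun χ _ => ?_
      rw [hfac χ f (hFinj f hf), Finset.mul_sum]
      refine Finset.sum_congr rfl fun l _ => ?_
      ring
    rw [h1]
    have h2 : ∀ l ∈ (univ : Finset (Fin r)), ∑ f ∈ F, v l f * ∑ χ : V → Fin q, u l χ * W (χ ∘ f) ≤
        (k : ℝ) ^ 2 * B * ((k / (δ ^ 2 / (4 * B ^ 2))) ^ k * k.factorial) * Ω := by
      intro l _
      apply rank_one_bound hk0 hq W B δ hB hδ hδB hW hmean F hFinj (u l) (v l) (hu l)
        (fun f hf => hv l f (hFinj f hf)) ((k : ℝ) ^ 2) (by positivity)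
      intro χ f hf
      have h3 := hfac χ f (hFinj f hf)
      have h4 : u l χ * v l f ≤ ∑ l, u l χ * v l f :=
        Finset.single_le_sum (f := fun l => u l χ * v l f)
          (fun l _ => mul_nonneg (hu l χ) (hv l f (hFinj f hf))) (mem_univ l)
      have h5 := mono_le (χ ∘ f)
      linarith
    calc _ ≤ ∑ l : Fin r, (k : ℝ) ^ 2 * B * ((k / (δ ^ 2 / (4 * B ^ 2))) ^ k * k.factorial) * Ω :=
          Finset.sum_le_sum h2
      _ = _ := by
          rw [Finset.sum_const, card_univ, Fintype.card_fin, nsmul_eq_mul]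
  have hfinal := hlow.trans hup
  have e1 : (k : ℝ) / (δ ^ 2 / (4 * B ^ 2)) = (4 * k * B ^ 2) / (ε ^ 2 * θ ^ 2) := by
    rw [hδdef]
    field_simp
  rw [e1, div_pow] at hfinal
  have hD : (ε ^ 2 * θ ^ 2) ^ k = ε ^ (2 * k) * θ ^ (2 * k) := by
    rw [mul_pow, ← pow_mul, ← pow_mul]
  rw [hD] at hfinal
  have hKk : 0 < (4 * (k : ℝ) * B ^ 2) ^ k := by positivity
  have hqk : 0 < (q : ℝ) ^ k := by positivity
  have hεk : 0 < ε ^ (2 * k) := by positivity
  have hθk : 0 < θ ^ (2 * k) := by positivity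
  have hfk : (0 : ℝ) < k.factorial := by positivity
  rw [pow_succ ε (2 * k)]
  generalize (4 * (k : ℝ) * B ^ 2) ^ k = Kk at *
  generalize (q : ℝ) ^ k = qk at *
  generalize ε ^ (2 * k) = εk at *
  generalize θ ^ (2 * k) = θk at *
  generalize (k.factorial : ℝ) = fk at *
  generalize (F.card : ℝ) = Fc at *
  generalize (r : ℝ) = rr at *
  have e2 : Fc * (Ω / qk * (ε / 2)) = Ω * (Fc * ε / (2 * qk)) := by
    field_simp
  have e3 : rr * ((k : ℝ) ^ 2 * B * (Kk / (εk * θk) * fk) * Ω) =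
      Ω * (rr * ((k : ℝ) ^ 2 * B * (Kk / (εk * θk) * fk))) := by ring
  rw [e2, e3] at hfinal
  have h6 := le_of_mul_le_mul_left hfinal hΩ0
  have h7 : θk / (2 * qk * (k : ℝ) ^ 2 * B * fk * Kk) * (εk * ε) * Fc =
      (Fc * ε / (2 * qk)) * ((εk * θk) / ((k : ℝ) ^ 2 * B * fk * Kk)) := by
    field_simp
  rw [h7]
  have h8 : rr * ((k : ℝ) ^ 2 * B * (Kk / (εk * θk) * fk)) *
        ((εk * θk) / ((k : ℝ) ^ 2 * B * fk * Kk)) = rr := by
    field_simp
  calc (Fc * ε / (2 * qk)) * ((εk * θk) / ((k : ℝ) ^ 2 * B * fk * Kk)) ≤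
      rr * ((k : ℝ) ^ 2 * B * (Kk / (εk * θk) * fk)) *
        ((εk * θk) / ((k : ℝ) ^ 2 * B * fk * Kk)) :=
        mul_le_mul_of_nonneg_right h6 (by positivity)
    _ = rr := h8

end H575R2
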