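import Pool.Agent.H575R2.DualFn

set_option autoImplicit false

open Finset

namespace H575R2

theorem prod_bound {V κ I : Type} [Fintype V] [DecidableEq V] [Fintype κ] [Nonempty κ]
    [DecidableEq κ] [DecidableEq I] (S : Finset I)
    (F : I → (V → κ) → ℝ) (t : I → V) (ρ : ℝ) (hρ : 0 ≤ ρ)
    (hF : ∀ l ∈ S, ∀ χ, 0 ≤ F l χ)
    (hindep : ∀ l ∈ S, ∀ l' ∈ S, l ≠ l' → ∀ χ x, F l (Function.update χ (t l') x) = F l χ)
    (hmean : ∀ l ∈ S, ∀ χ, ∑ x, F l (Function.update χ (t l) x) ≤ Fintype.card κ * ρ) :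
    ∑ χ, ∏ l ∈ S, F l χ ≤ ρ ^ S.card * Fintype.card (V → κ) := by
  induction S using Finset.induction_on with
  | empty => simp
  | insert a S ha ih =>
    have hq : (0 : ℝ) < Fintype.card κ := by exact_mod_cast Fintype.card_pos
    have ih' := ih (fun l hl => hF l (mem_insert_of_mem hl))
      (fun l hl l' hl' => hindep l (mem_insert_of_mem hl) l' (mem_insert_of_mem hl'))
      (fun l hl => hmean l (mem_insert_of_mem hl))
    have h1 := sum_update (fun χ : V → κ => ∏ l ∈ insert a S, F l χ) (t a)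
    rw [nsmul_eq_mul] at h1
    have h2 : ∑ χ : V → κ, ∑ x, ∏ l ∈ insert a S, F l (Function.update χ (t a) x) ≤
        ∑ χ : V → κ, (Fintype.card κ * ρ) * ∏ l ∈ S, F l χ := by
      refine Finset.sum_le_sum fun χ _ => ?_
      have e : ∀ x, ∏ l ∈ insert a S, F l (Function.update χ (t a) x) =
          F a (Function.update χ (t a) x) * ∏ l ∈ S, F l χ := by
        intro x
        rw [Finset.prod_insert ha]
        congr 1
        refine Finset.prod_congr rfl fun l hl => ?_
        exact hindep l (mem_insert_of_mem hl) a (mem_insert_self a S)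
          (fun h => ha (h ▸ hl)) χ x
      simp only [e]
      rw [← Finset.sum_mul]
      apply mul_le_mul_of_nonneg_right (hmean a (mem_insert_self a S) χ)
      exact Finset.prod_nonneg fun l hl => hF l (mem_insert_of_mem hl) χ
    rw [← h1, ← Finset.mul_sum, mul_assoc] at h2
    have h3 := le_of_mul_le_mul_left h2 hq
    rw [Finset.card_insert_of_notMem ha, pow_succ]
    calc ∑ χ, ∏ l ∈ insert a S, F l χ ≤ ρ * ∑ χ, ∏ l ∈ S, F l χ := h3
      _ ≤ ρ * (ρ ^ S.card * Fintype.card (V → κ)) := mul_le_mul_of_nonneg_left ih' hρ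
      _ = _ := by ring

theorem mgf {ι κ : Type} [DecidableEq ι] [Fintype κ] (W : (ι → κ) → ℝ) (B δ : ℝ)
    (hB : 0 < B) (hδ : 0 < δ) (hδB : δ ≤ B) (hW : ∀ c, |W c| ≤ B) (c : ι → κ) (v : ι)
    (hmean : ∑ x, W (Function.update c v x) ≤ -(δ * Fintype.card κ)) :
    ∑ x, Real.exp (δ / (2 * B ^ 2) * W (Function.update c v x)) ≤
      Fintype.card κ * Real.exp (-(δ ^ 2 / (4 * B ^ 2))) := by
  set lam : ℝ := δ / (2 * B ^ 2) with hlam
  have hlam0 : 0 < lam := by positivity
  have h1 : ∀ x, Real.exp (lam * W (Function.update c v x)) ≤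
      1 + lam * W (Function.update c v x) + lam ^ 2 * B ^ 2 := by
    intro x
    have habs : |lam * W (Function.update c v x)| ≤ 1 := by
      rw [abs_mul, abs_of_pos hlam0]
      calc lam * |W (Function.update c v x)| ≤ lam * B :=
            mul_le_mul_of_nonneg_left (hW _) hlam0.le
        _ = δ / (2 * B) := by rw [hlam]; field_simp
        _ ≤ 1 := by
            rw [div_le_one (by positivity)]
            linarith
    have h2 := Real.abs_exp_sub_one_sub_id_le habs
    have h3 := (abs_le.mp h2).2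
    have h4 : (lam * W (Function.update c v x)) ^ 2 ≤ lam ^ 2 * B ^ 2 := by
      rw [mul_pow]
      apply mul_le_mul_of_nonneg_left _ (by positivity)
      rw [← sq_abs]
      exact pow_le_pow_left₀ (abs_nonneg _) (hW _) 2
    linarith
  calc ∑ x, Real.exp (lam * W (Function.update c v x)) ≤
        ∑ x, (1 + lam * W (Function.update c v x) + lam ^ 2 * B ^ 2) :=
        Finset.sum_le_sum fun x _ => h1 x
    _ = Fintype.card κ * (1 + lam ^ 2 * B ^ 2) + lam * ∑ x, W (Function.update c v x) := by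
        rw [Finset.sum_add_distrib, Finset.sum_add_distrib, Finset.mul_sum]
        simp
        ring
    _ ≤ Fintype.card κ * (1 + lam ^ 2 * B ^ 2) + lam * (-(δ * Fintype.card κ)) := by
        have := mul_le_mul_of_nonneg_left hmean hlam0.le
        linarith
    _ = Fintype.card κ * (1 - δ ^ 2 / (4 * B ^ 2)) := by
        rw [hlam]
        field_simp
        ring
    _ ≤ Fintype.card κ * Real.exp (-(δ ^ 2 / (4 * B ^ 2))) := by
        apply mul_le_mul_of_nonneg_left _ (by positivity)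
        have := Real.add_one_le_exp (-(δ ^ 2 / (4 * B ^ 2)))
        linarith

/-- The family of `good` embeddings is small if the weight function is not tiny. -/
theorem good_family {k q : ℕ} {V : Type} [Fintype V] [DecidableEq V] (hk : 0 < k) (hq : 0 < q)
    (W : (Fin k → Fin q) → ℝ) (B δ : ℝ)
    (hB : 0 < B) (hδ : 0 < δ) (hδB : δ ≤ B) (hW : ∀ c, |W c| ≤ B)
    (hmean : ∀ c v, ∑ x, W (Function.update c v x) ≤ -(δ * q))
    (U : (V → Fin q) → ℝ) (hU0 : ∀ χ, 0 ≤ U χ) (hU1 : ∀ χ, U χ ≤ 1)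
    (G : Finset (Fin k → V)) (hinj : ∀ f ∈ G, Function.Injective f)
    (hgood : ∀ f ∈ G, 0 ≤ ∑ χ, U χ * W (χ ∘ f)) :
    ∃ L : ℕ, G.card ≤ (k * L) ^ k ∧
      ∑ χ, U χ ≤ Real.exp (-(δ ^ 2 / (4 * B ^ 2))) ^ L * Fintype.card (V → Fin q) := by
  classical
  have : Nonempty (Fin q) := ⟨⟨0, hq⟩⟩
  have : Nonempty (Fin k) := ⟨⟨0, hk⟩⟩
  let T : Finset V := G.biUnion fun f => univ.image f
  -- minimal subfamily with the same union
  have hex : ∃ n, ∃ G' ⊆ G, (G'.biUnion fun f => univ.image f) = T ∧ G'.card = n :=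
    ⟨G.card, G, Subset.refl _, rfl, rfl⟩
  obtain ⟨G', hsub, hT, hcard⟩ := Nat.find_spec hex
  have hmin : ∀ G'' ⊆ G, (G''.biUnion fun f => univ.image f) = T → G'.card ≤ G''.card := by
    intro G'' h1 h2
    rw [hcard]
    exact Nat.find_min' hex ⟨G'', h1, h2, rfl⟩
  have hpriv : ∀ f ∈ G', ∃ v : Fin k, ∀ f' ∈ G', f' ≠ f → ∀ j, f' j ≠ f v := by
    intro f hf
    by_contra hcon
    push Not at hcon
    have h1 : ((G'.erase f).biUnion fun f => univ.image f) = T := by
      rw [← hT]
      apply Finset.Subset.antisymm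
      · exact Finset.biUnion_subset_biUnion_of_subset_left _ (erase_subset _ _)
      · intro x hx
        rw [mem_biUnion] at hx ⊢
        obtain ⟨g, hg, hxg⟩ := hx
        by_cases hgf : g = f
        · rw [hgf, mem_image] at hxg
          obtain ⟨v, -, hv⟩ := hxg
          obtain ⟨f', hf', hne, j, hj⟩ := hcon v
          exact ⟨f', mem_erase.mpr ⟨hne, hf'⟩, mem_image.mpr ⟨j, mem_univ j, hj.trans hv⟩⟩
        · exact ⟨g, mem_erase.mpr ⟨hgf, hg⟩, hxg⟩
    have h2 := hmin _ ((erase_subset _ _).trans hsub) h1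
    have h3 := card_erase_lt_of_mem hf
    omega
  choose! vv hvv using hpriv
  refine ⟨G'.card, ?_, ?_⟩
  · have h1 : G ⊆ Fintype.piFinset (fun _ : Fin k => T) := by
      intro f hf
      rw [Fintype.mem_piFinset]
      intro i
      exact mem_biUnion.mpr ⟨f, hf, mem_image.mpr ⟨i, mem_univ i, rfl⟩⟩
    have h2 := Finset.card_le_card h1
    rw [Fintype.card_piFinset, Finset.prod_const, card_univ, Fintype.card_fin] at h2
    have h3 : T.card ≤ k * G'.card := by
      rw [← hT]
      have := Finset.card_biUnion_le_card_mul G' (fun f => univ.image f) k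
        (fun f _ => by
          have := Finset.card_image_le (s := (univ : Finset (Fin k))) (f := f)
          simpa using this)
      rw [mul_comm]
      exact this
    exact h2.trans (Nat.pow_le_pow_left h3 k)
  · set lam : ℝ := δ / (2 * B ^ 2) with hlam
    have hlam0 : 0 < lam := by positivity
    have step1 : ∑ χ, U χ ≤ ∑ χ, U χ * Real.exp (lam * ∑ f ∈ G', W (χ ∘ f)) := by
      have h1 : ∑ χ, U χ * (1 + lam * ∑ f ∈ G', W (χ ∘ f)) ≤
          ∑ χ, U χ * Real.exp (lam * ∑ f ∈ G', W (χ ∘ f)) := by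
        refine Finset.sum_le_sum fun χ _ => ?_
        apply mul_le_mul_of_nonneg_left _ (hU0 χ)
        have := Real.add_one_le_exp (lam * ∑ f ∈ G', W (χ ∘ f))
        linarith
      have h2 : ∑ χ, U χ * (1 + lam * ∑ f ∈ G', W (χ ∘ f)) =
          ∑ χ, U χ + lam * ∑ f ∈ G', ∑ χ, U χ * W (χ ∘ f) := by
        rw [Finset.sum_comm, Finset.mul_sum, ← Finset.sum_add_distrib]
        refine Finset.sum_congr rfl fun χ _ => ?_
        rw [← Finset.mul_sum]
        ring
      have h3 : 0 ≤ ∑ f ∈ G', ∑ χ, U χ * W (χ ∘ f) :=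
        Finset.sum_nonneg fun f hf => hgood f (hsub hf)
      have h4 := mul_nonneg hlam0.le h3
      linarith
    have step2 : ∑ χ, U χ * Real.exp (lam * ∑ f ∈ G', W (χ ∘ f)) ≤
        ∑ χ : V → Fin q, ∏ f ∈ G', Real.exp (lam * W (χ ∘ f)) := by
      refine Finset.sum_le_sum fun χ _ => ?_
      rw [Finset.mul_sum, Real.exp_sum]
      have h0 : 0 ≤ ∏ f ∈ G', Real.exp (lam * W (χ ∘ f)) :=
        Finset.prod_nonneg fun f _ => (Real.exp_pos _).le
      calc U χ * ∏ f ∈ G', Real.exp (lam * W (χ ∘ f)) ≤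
          1 * ∏ f ∈ G', Real.exp (lam * W (χ ∘ f)) := mul_le_mul_of_nonneg_right (hU1 χ) h0
        _ = _ := one_mul _
    have step3 := prod_bound G' (fun f (χ : V → Fin q) => Real.exp (lam * W (χ ∘ f)))
      (fun f => f (vv f)) (Real.exp (-(δ ^ 2 / (4 * B ^ 2)))) (Real.exp_pos _).le
      (fun f _ χ => (Real.exp_pos _).le)
      (by
        intro f hf f' hf' hne χ x
        have h1 : (Function.update χ (f' (vv f')) x) ∘ f = χ ∘ f := by
          funext j
          simp only [Function.comp_apply]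
          rw [Function.update_of_ne]
          exact hvv f' hf' f hf hne j
        simp only [h1])
      (by
        intro f hf χ
        have h1 : ∀ x, (Function.update χ (f (vv f)) x) ∘ f = Function.update (χ ∘ f) (vv f) x := by
          intro x
          funext j
          simp only [Function.comp_apply]
          by_cases hj : j = vv f
          · subst hj; simp
          · rw [Function.update_of_ne hj, Function.update_of_ne]
            · rfl
            · intro h
              exact hj (hinj f (hsub hf) h)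
        simp only [h1]
        have := mgf W B δ hB hδ hδB hW (χ ∘ f) (vv f) (by
          rw [Fintype.card_fin]
          exact hmean _ _)
        exact this)
    exact step1.trans (step2.trans step3)

theorem pow_exp_bound (k L : ℕ) (a : ℝ) (ha : 0 < a) :
    ((k * L : ℕ) : ℝ) ^ k * Real.exp (-a) ^ L ≤ (k / a) ^ k * k.factorial := by
  have h1 : (a * L) ^ k / k.factorial ≤ Real.exp (a * L) :=
    Real.pow_div_factorial_le_exp (a * L) (by positivity) k
  have h2 : (a * L) ^ k * Real.exp (-(a * L)) ≤ k.factorial := by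
    rw [div_le_iff₀ (by positivity)] at h1
    rw [Real.exp_neg, ← div_eq_mul_inv, div_le_iff₀ (Real.exp_pos _)]
    linarith
  have h3 : Real.exp (-a) ^ L = Real.exp (-(a * L)) := by
    rw [← Real.exp_nat_mul]
    congr 1
    ring
  rw [h3]
  have e : ((k * L : ℕ) : ℝ) ^ k * Real.exp (-(a * L)) =
      (k / a) ^ k * ((a * L) ^ k * Real.exp (-(a * L))) := by
    push_cast
    rw [← mul_assoc, ← mul_pow]
    congr 2
    field_simp
  rw [e]
  exact mul_le_mul_of_nonneg_left h2 (by positivity)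

/-- Bound for one nonnegative rank-one term. -/
theorem rank_one_bound {k q : ℕ} {V : Type} [Fintype V] [DecidableEq V] (hk : 0 < k) (hq : 0 < q)
    (W : (Fin k → Fin q) → ℝ) (B δ : ℝ)
    (hB : 0 < B) (hδ : 0 < δ) (hδB : δ ≤ B) (hW : ∀ c, |W c| ≤ B)
    (hmean : ∀ c v, ∑ x, W (Function.update c v x) ≤ -(δ * q))
    (F : Finset (Fin k → V)) (hinj : ∀ f ∈ F, Function.Injective f)
    (u : (V → Fin q) → ℝ) (v : (Fin k → V) → ℝ) (hu : ∀ χ, 0 ≤ u χ) (hv : ∀ f ∈ F, 0 ≤ v f)
    (M : ℝ) (hM : 0 < M) (huv : ∀ χ, ∀ f ∈ F, u χ * v f ≤ M) :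
    ∑ f ∈ F, v f * ∑ χ, u χ * W (χ ∘ f) ≤
      M * B * ((k / (δ ^ 2 / (4 * B ^ 2))) ^ k * k.factorial) * Fintype.card (V → Fin q) := by
  classical
  have hRHS : 0 ≤ M * B * ((k / (δ ^ 2 / (4 * B ^ 2))) ^ k * k.factorial) *
      Fintype.card (V → Fin q) := by positivity
  by_cases hpos : ∃ f ∈ F, 0 < v f
  swap
  · push Not at hpos
    have h0 : ∑ f ∈ F, v f * ∑ χ, u χ * W (χ ∘ f) = 0 := by
      refine Finset.sum_eq_zero fun f hf => ?_
      have : v f = 0 := le_antisymm (hpos f hf) (hv f hf)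
      rw [this, zero_mul]
    rw [h0]
    exact hRHS
  obtain ⟨f0, hf0, hf0pos⟩ := hpos
  obtain ⟨fm, hfm, hmax⟩ := Finset.exists_max_image F v ⟨f0, hf0⟩
  have hvm : 0 < v fm := lt_of_lt_of_le hf0pos (hmax f0 hf0)
  set U : (V → Fin q) → ℝ := fun χ => u χ * v fm / M with hUdef
  have hU0 : ∀ χ, 0 ≤ U χ := fun χ => div_nonneg (mul_nonneg (hu χ) hvm.le) hM.le
  have hU1 : ∀ χ, U χ ≤ 1 := fun χ => by
    rw [hUdef]
    simp only
    rw [div_le_one hM]
    exact huv χ fm hfm
  set G : Finset (Fin k → V) := F.filter fun f => 0 ≤ ∑ χ, U χ * W (χ ∘ f) with hG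
  obtain ⟨L, hL1, hL2⟩ := good_family hk hq W B δ hB hδ hδB hW hmean U hU0 hU1 G
    (fun f hf => hinj f (mem_filter.mp hf).1) (fun f hf => (mem_filter.mp hf).2)
  have hUu : ∀ f : Fin k → V, ∑ χ, U χ * W (χ ∘ f) = v fm / M * ∑ χ, u χ * W (χ ∘ f) := by
    intro f
    rw [Finset.mul_sum]
    refine Finset.sum_congr rfl fun χ _ => ?_
    rw [hUdef]
    simp only
    ring
  have hterm : ∀ f ∈ F, v f * ∑ χ, u χ * W (χ ∘ f) ≤
      if f ∈ G then M * (B * ∑ χ, U χ) else 0 := by
    intro f hf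
    split_ifs with hfG
    · have h1 : 0 ≤ ∑ χ, U χ * W (χ ∘ f) := (mem_filter.mp hfG).2
      have h2 : ∑ χ, U χ * W (χ ∘ f) ≤ B * ∑ χ, U χ := by
        rw [Finset.mul_sum]
        refine Finset.sum_le_sum fun χ _ => ?_
        rw [mul_comm B]
        exact mul_le_mul_of_nonneg_left ((le_abs_self _).trans (hW _)) (hU0 χ)
      have h3 : v f * ∑ χ, u χ * W (χ ∘ f) ≤ v fm * ∑ χ, u χ * W (χ ∘ f) := by
        apply mul_le_mul_of_nonneg_right (hmax f hf)
        rw [hUu] at h1
        by_contra hneg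
        push Not at hneg
        have : v fm / M * ∑ χ, u χ * W (χ ∘ f) < 0 :=
          mul_neg_of_pos_of_neg (div_pos hvm hM) hneg
        linarith
      have h4 : v fm * ∑ χ, u χ * W (χ ∘ f) = M * ∑ χ, U χ * W (χ ∘ f) := by
        rw [hUu]
        field_simp
      rw [h4] at h3
      exact h3.trans (mul_le_mul_of_nonneg_left h2 hM.le)
    · have h1 : ∑ χ, U χ * W (χ ∘ f) < 0 := by
        by_contra hcon
        push Not at hcon
        exact hfG (mem_filter.mpr ⟨hf, hcon⟩)
      rw [hUu] at h1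
      have h2 : ∑ χ, u χ * W (χ ∘ f) < 0 := by
        by_contra hcon
        push Not at hcon
        have := mul_nonneg (div_pos hvm hM).le hcon
        linarith
      exact mul_nonpos_of_nonneg_of_nonpos (hv f hf) h2.le
  have hsum : ∑ f ∈ F, v f * ∑ χ, u χ * W (χ ∘ f) ≤ G.card * (M * (B * ∑ χ, U χ)) := by
    calc _ ≤ ∑ f ∈ F, (if f ∈ G then M * (B * ∑ χ, U χ) else 0) := Finset.sum_le_sum hterm
      _ = ∑ f ∈ F.filter (fun f => f ∈ G), M * (B * ∑ χ, U χ) := by
          rw [Finset.sum_filter]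
      _ = G.card * (M * (B * ∑ χ, U χ)) := by
          have : F.filter (fun f => f ∈ G) = G := by
            ext f
            simp only [mem_filter]
            constructor
            · exact fun h => h.2
            · exact fun h => ⟨(mem_filter.mp h).1, h⟩
          rw [this, Finset.sum_const, nsmul_eq_mul]
  have ha : 0 < δ ^ 2 / (4 * B ^ 2) := by positivity
  have hcardG : (G.card : ℝ) ≤ ((k * L : ℕ) : ℝ) ^ k := by exact_mod_cast hL1
  have hUs : 0 ≤ ∑ χ, U χ := Finset.sum_nonneg fun χ _ => hU0 χ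
  calc ∑ f ∈ F, v f * ∑ χ, u χ * W (χ ∘ f) ≤ G.card * (M * (B * ∑ χ, U χ)) := hsum
    _ ≤ ((k * L : ℕ) : ℝ) ^ k * (M * (B * (Real.exp (-(δ ^ 2 / (4 * B ^ 2))) ^ L *
          Fintype.card (V → Fin q)))) := by
        apply mul_le_mul hcardG _ (by positivity) (by positivity)
        apply mul_le_mul_of_nonneg_left _ hM.le
        exact mul_le_mul_of_nonneg_left hL2 hB.le
    _ = M * B * (((k * L : ℕ) : ℝ) ^ k * Real.exp (-(δ ^ 2 / (4 * B ^ 2))) ^ L) *
          Fintype.card (V → Fin q) := by ring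
    _ ≤ _ := by
        apply mul_le_mul_of_nonneg_right _ (by positivity)
        apply mul_le_mul_of_nonneg_left _ (by positivity)
        exact pow_exp_bound k L _ ha

end H575R2
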