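import Mathlib

set_option autoImplicit false

open Finset

namespace H575R2

/-- sum versus product -/
theorem sum_le_prod {ι : Type} [DecidableEq ι] (S : Finset ι) (t p : ι → ℕ)
    (h1 : ∀ i ∈ S, t i ≤ p i) (h2 : ∀ i ∈ S, t i = 0 ∨ 4 ≤ t i) (h3 : ∀ i ∈ S, 1 ≤ p i) :
    ∑ i ∈ S, t i ≤ ∏ i ∈ S, p i ∧ (∑ i ∈ S, t i = 0 ∨ 4 ≤ ∑ i ∈ S, t i) ∧
      1 ≤ ∏ i ∈ S, p i := by
  induction S using Finset.induction_on with
  | empty => simp
  | insert a S ha ih =>
    obtain ⟨i1, i2, i3⟩ := ih (fun i hi => h1 i (mem_insert_of_mem hi))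
      (fun i hi => h2 i (mem_insert_of_mem hi)) (fun i hi => h3 i (mem_insert_of_mem hi))
    rw [Finset.sum_insert ha, Finset.prod_insert ha]
    have a1 := h1 a (mem_insert_self a S)
    have a2 := h2 a (mem_insert_self a S)
    have a3 := h3 a (mem_insert_self a S)
    set T := ∑ i ∈ S, t i
    set P := ∏ i ∈ S, p i
    refine ⟨?_, ?_, ?_⟩
    · rcases a2 with h | h
      · rw [h, zero_add]
        nlinarith
      · rcases i2 with h' | h'
        · rw [h', add_zero]
          nlinarith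
        · nlinarith
    · rcases a2 with h | h
      · rcases i2 with h' | h'
        · left; omega
        · right; omega
      · right; omega
    · nlinarith

theorem le_two_pow_pred (a : ℕ) (ha : 1 ≤ a) : a ≤ 2 ^ (a - 1) := by
  obtain ⟨b, rfl⟩ : ∃ b, a = b + 1 := ⟨a - 1, by omega⟩
  simpa using Nat.lt_two_pow_self (n := b)

/-- A family `B` of transversal triples, all monochromatic under a family `A` of
2-colourings, satisfies `4 |A| |B| ≤ 2^(3n)`. -/
theorem tri_rect {n : ℕ} (A : Finset (Fin 3 × Fin n → Bool)) (B : Finset (Fin 3 → Fin n))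
    (hAB : ∀ χ ∈ A, ∀ T ∈ B, ∀ c : Fin 3, χ (c, T c) = χ (0, T 0)) :
    4 * (A.card * B.card) ≤ 2 ^ (3 * n) := by
  classical
  -- signatures
  let σ : Fin 3 × Fin n → ({χ // χ ∈ A} → Bool) := fun v χ => χ.1 v
  let S : Finset ({χ // χ ∈ A} → Bool) := univ.image σ
  -- |A| ≤ 2 ^ |S|
  have hA : A.card ≤ 2 ^ S.card := by
    have h1 : Fintype.card {χ // χ ∈ A} ≤ Fintype.card ({s // s ∈ S} → Bool) := by
      apply Fintype.card_le_of_injective (fun χ s => s.1 χ)
      intro χ χ' h
      apply Subtype.ext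
      funext v
      have := congrFun h ⟨σ v, mem_image_of_mem σ (mem_univ v)⟩
      exact this
    simpa using h1
  -- sizes
  let a : Fin 3 → ({χ // χ ∈ A} → Bool) → ℕ := fun c s => (univ.filter fun i : Fin n => σ (c, i) = s).card
  have hB : B.card ≤ ∑ s ∈ S, a 0 s * a 1 s * a 2 s := by
    have h1 : B.card = ∑ s ∈ S, (B.filter fun T => σ (0, T 0) = s).card :=
      Finset.card_eq_sum_card_fiberwise (fun T _ => mem_coe.mpr (mem_image_of_mem σ (mem_univ _)))
    rw [h1]
    refine Finset.sum_le_sum fun s _ => ?_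
    have h2 : (B.filter fun T => σ (0, T 0) = s) ⊆
        Fintype.piFinset (fun c : Fin 3 => univ.filter fun i : Fin n => σ (c, i) = s) := by
      intro T hT
      rw [Fintype.mem_piFinset]
      intro c
      rw [mem_filter] at hT
      rw [mem_filter]
      refine ⟨mem_univ _, ?_⟩
      rw [← hT.2]
      funext χ
      exact hAB χ.1 χ.2 T hT.1 c
    have h3 := Finset.card_le_card h2
    rw [Fintype.card_piFinset, Fin.prod_univ_three] at h3
    exact h3
  -- total number of vertices
  have htot : ∑ s ∈ S, (a 0 s + a 1 s + a 2 s) = 3 * n := by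
    have h1 : ∀ c : Fin 3, ∑ s ∈ S, a c s = n := by
      intro c
      have := Finset.card_eq_sum_card_fiberwise (f := fun i : Fin n => σ (c, i))
        (s := (univ : Finset (Fin n))) (t := S)
        (fun i _ => mem_coe.mpr (mem_image_of_mem σ (mem_univ (c, i))))
      rw [card_univ, Fintype.card_fin] at this
      exact this.symm
    rw [Finset.sum_add_distrib, Finset.sum_add_distrib, h1, h1, h1]
    ring
  have hpos : ∀ s ∈ S, 1 ≤ a 0 s + a 1 s + a 2 s := by
    intro s hs
    obtain ⟨⟨c, i⟩, -, hv⟩ := mem_image.mp hs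
    have h1 : 1 ≤ a c s := by
      apply Finset.card_pos.mpr
      exact ⟨i, mem_filter.mpr ⟨mem_univ i, hv⟩⟩
    fin_cases c
    · have : 1 ≤ a 0 s := h1
      omega
    · have : 1 ≤ a 1 s := h1
      omega
    · have : 1 ≤ a 2 s := h1
      omega
  have hmain := sum_le_prod S (fun s => 4 * (a 0 s * a 1 s * a 2 s))
    (fun s => 2 ^ (a 0 s + a 1 s + a 2 s - 1))
    (by
      intro s hs
      by_cases h0 : a 0 s * a 1 s * a 2 s = 0
      · rw [h0]; simp
      · have hne0 : a 0 s ≠ 0 := fun h => h0 (by rw [h]; ring)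
        have hne1 : a 1 s ≠ 0 := fun h => h0 (by rw [h]; ring)
        have hne2 : a 2 s ≠ 0 := fun h => h0 (by rw [h]; ring)
        have e0 := le_two_pow_pred (a 0 s) (by omega)
        have e1 := le_two_pow_pred (a 1 s) (by omega)
        have e2 := le_two_pow_pred (a 2 s) (by omega)
        have e3 : 2 ^ (a 0 s + a 1 s + a 2 s - 1) =
            4 * (2 ^ (a 0 s - 1) * 2 ^ (a 1 s - 1) * 2 ^ (a 2 s - 1)) := by
          rw [← pow_add, ← pow_add]
          have : (4 : ℕ) = 2 ^ 2 := by norm_num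
          rw [this, ← pow_add]
          congr 1
          omega
        rw [e3]
        apply Nat.mul_le_mul_left
        exact Nat.mul_le_mul (Nat.mul_le_mul e0 e1) e2)
    (by
      intro s hs
      by_cases h0 : a 0 s * a 1 s * a 2 s = 0
      · left; rw [h0]
      · right
        have : 1 ≤ a 0 s * a 1 s * a 2 s := Nat.one_le_iff_ne_zero.mpr h0
        omega)
    (fun s _ => Nat.one_le_two_pow)
  have hprod : (∏ s ∈ S, 2 ^ (a 0 s + a 1 s + a 2 s - 1)) * 2 ^ S.card = 2 ^ (3 * n) := by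
    rw [← htot, Finset.card_eq_sum_ones, ← Finset.prod_pow_eq_pow_sum, ← Finset.prod_pow_eq_pow_sum,
      ← Finset.prod_mul_distrib]
    refine Finset.prod_congr rfl fun s hs => ?_
    rw [← pow_add]
    congr 1
    have := hpos s hs
    omega
  calc 4 * (A.card * B.card) ≤ 4 * (2 ^ S.card * ∑ s ∈ S, a 0 s * a 1 s * a 2 s) :=
        Nat.mul_le_mul_left _ (Nat.mul_le_mul hA hB)
    _ = (∑ s ∈ S, 4 * (a 0 s * a 1 s * a 2 s)) * 2 ^ S.card := by
        rw [← Finset.mul_sum]; ring
    _ ≤ (∏ s ∈ S, 2 ^ (a 0 s + a 1 s + a 2 s - 1)) * 2 ^ S.card :=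
        Nat.mul_le_mul_right _ hmain.1
    _ = 2 ^ (3 * n) := hprod

end H575R2
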